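import Pool.Agent.V11250.LR.Hull

/-!
# The diagonal point of the mixed lonely runner parameter space for three speeds

For `k = 3` the diagonal point `(1/4, 1/4, 1/4)` lies in `MLPS 3` and is a convex combination of points of
the upper boundary of `MLPS 3` different from it.
-/

set_option autoImplicit false

namespace Pool.Agent.Results.MP_b0d7fb_nt.DiagonalInHull

open Set Pool.Agent.V11250.LR

theorem result :
    (∃ k : ℕ, 1 ≤ k ∧ diagPt k ∈ MLPS k ∧
      diagPt k ∈ convexHull ℝ (UpperBoundary k \ {diagPt k})) ∧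
    (diagPt 3 ∈ UpperBoundary 3 ∧ diagPt 3 ∈ convexHull ℝ (UpperBoundary 3 \ {diagPt 3})) ∧
    (![9 / 25, 1 / 5, 1 / 5] : Fin 3 → ℝ) ∈ MLPS 3 := by
  have hD : diagPt 3 = fun _ => 1 / 4 := by
    funext i
    unfold diagPt
    norm_num
  have hmem : diagPt 3 ∈ MLPS 3 := by rw [hD]; exact quarter_mem
  obtain ⟨P, hP, hPle⟩ := exists_max high_mem
  obtain ⟨Q, hQ, hQle⟩ := exists_max low_mem
  have p0 : 9 / 25 ≤ P 0 := by simpa using hPle 0
  have p1 : 1 / 5 ≤ P 1 := by simpa using hPle 1
  have p2 : 1 / 5 ≤ P 2 := by simpa using hPle 2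
  have q0 : 9 / 20 ≤ Q 0 := by simpa using hQle 0
  obtain ⟨q1, q2⟩ := bound_mem hQ.1
  -- the cyclic shifts differ from the diagonal point
  have hPS : ∀ σ : Equiv.Perm (Fin 3), (fun i => P (σ i)) ∈ UpperBoundary 3 \ {diagPt 3} := by
    intro σ
    refine ⟨UB_perm hP σ, fun h => ?_⟩
    have := congrFun (mem_singleton_iff.1 h) (σ.symm 0)
    rw [hD] at this
    simp only [Equiv.apply_symm_apply] at this
    linarith
  have hQS : ∀ σ : Equiv.Perm (Fin 3), (fun i => Q (σ i)) ∈ UpperBoundary 3 \ {diagPt 3} := by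
    intro σ
    refine ⟨UB_perm hQ σ, fun h => ?_⟩
    have := congrFun (mem_singleton_iff.1 h) (σ.symm 0)
    rw [hD] at this
    simp only [Equiv.apply_symm_apply] at this
    linarith
  have h1 := mean_mem hPS
  have h2 := mean_mem hQS
  have hull : diagPt 3 ∈ convexHull ℝ (UpperBoundary 3 \ {diagPt 3}) := by
    set u : ℝ := (P 0 + P 1 + P 2) / 3 with hu
    set v : ℝ := (Q 0 + Q 1 + Q 2) / 3 with hv
    have hu1 : 1 / 4 < u := by rw [hu]; linarith
    have hv1 : v < 1 / 4 := by rw [hv]; linarith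
    have huv : 0 < u - v := by linarith
    have h3 := (convex_convexHull ℝ (UpperBoundary 3 \ {diagPt 3})) h1 h2
      (a := (1 / 4 - v) / (u - v)) (b := (u - 1 / 4) / (u - v))
      (div_nonneg (by linarith) huv.le) (div_nonneg (by linarith) huv.le)
      (by rw [← add_div, div_eq_one_iff_eq huv.ne']; ring)
    have h4 : ((1 / 4 - v) / (u - v)) • (fun _ : Fin 3 => u) +
        ((u - 1 / 4) / (u - v)) • (fun _ : Fin 3 => v) = fun _ => 1 / 4 := by
      funext i
      simp only [Pi.add_apply, Pi.smul_apply, smul_eq_mul]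
      field_simp
      ring
    rw [h4, ← hD] at h3
    exact h3
  have hub : diagPt 3 ∈ UpperBoundary 3 := by
    refine ⟨hmem, ?_⟩
    intro e he hne hle
    rw [hD] at hle
    -- the speeds 1, 2, 3 and a permutation which moves a strictly larger entry to the speed 1
    have hex : ∃ i, 1 / 4 < e i := by
      by_contra h
      push Not at h
      apply hne
      rw [hD]
      funext i
      exact le_antisymm (h i) (hle i)
    obtain ⟨i, hi⟩ := hex
    have hperm : ∃ σ : Equiv.Perm (Fin 3), σ 0 = i := ⟨Equiv.swap 0 i, Equiv.swap_apply_left 0 i⟩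
    obtain ⟨σ, hσ⟩ := hperm
    have he' := MLPS_perm he σ
    obtain ⟨t, ht⟩ := he'.2 ![1, 2, 3] (by decide) (by decide)
    have t0 := ht 0
    have t1 := ht 1
    have t2 := ht 2
    simp only [Matrix.cons_val_zero, Matrix.cons_val_one, Matrix.cons_val, Nat.cast_one, one_mul,
      Nat.cast_ofNat] at t0 t1 t2
    rw [hσ] at t0
    have l1 := hle (σ 1)
    have l2 := hle (σ 2)
    simp only at l1 l2
    obtain ⟨N, n1, n2⟩ := exists_of_le_nint t0
    obtain ⟨M, m1, m2⟩ := exists_of_le_nint (l1.trans t1)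
    obtain ⟨K, k1, k2⟩ := exists_of_le_nint (l2.trans t2)
    have a1 : (2 * N : ℝ) < M + 1 := by linarith
    have a2 : (M : ℝ) < 2 * N + 2 := by linarith
    have b1 : (3 * N : ℝ) < K + 1 := by linarith
    have b2 : (K : ℝ) < 3 * N + 3 := by linarith
    have a1' : 2 * N < M + 1 := by exact_mod_cast a1
    have a2' : M < 2 * N + 2 := by exact_mod_cast a2
    have b1' : 3 * N < K + 1 := by exact_mod_cast b1
    have b2' : K < 3 * N + 3 := by exact_mod_cast b2
    have c1 : M = 2 * N ∨ M = 2 * N + 1 := by omega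
    have c2 : K = 3 * N ∨ K = 3 * N + 1 ∨ K = 3 * N + 2 := by omega
    rcases c1 with rfl | rfl <;> rcases c2 with rfl | rfl | rfl <;>
      (push_cast at m1 m2 k1 k2; linarith)
  exact ⟨⟨3, by norm_num, hmem, hull⟩, ⟨hub, hull⟩, high_mem⟩

end Pool.Agent.Results.MP_b0d7fb_nt.DiagonalInHull
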